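import Pool.Agent.Helper39.ToepHardy
import Pool.Agent.Helper39.Injective

/-!
# MP_bb1e6f_an, Q1: the similarity theorem fails at a zero inner angle

We disprove Q1.  Take `F(z) = (z + 1/z)² + i (z + 1/z)³`.  It maps the unit circle into a simple
closed curve `Γ` (the cuspidal arc `{x² + i x³ : |x| ≤ 2}` closed up by a vertical segment) which has
inner angle `0` at its singular point `0`, and the winding number of `F` about the points inside `Γ`
is `ν = 0`.  The curve `F(e^{it})` passes through the cusp twice, once in the positive direction and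
once backing up.  We show that `T_F` is not similar to `M_1 ⊕ ⋯ ⊕ M_n`, where `M_k` is
multiplication by `F` on `L²(γ_k)`, for any finite family of subsets `γ_k` of the circle: the
resolvent of `T_F` grows faster than the reciprocal of the distance to `F(𝕋)` near the cusp.
-/

set_option autoImplicit false

open Complex ComplexConjugate InnerProductSpace MeasureTheory AddCircle Set Metric Filter Topology
open scoped ENNReal Polynomial Real

namespace Pool.Agent.Results.MP_bb1e6f_an.ZeroAngleNotSimilar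

/-! ### Curves -/

/-- `Γ` is a simple closed curve (Jordan curve) in the plane. -/
def IsSimpleClosedCurve (Γ : Set ℂ) : Prop :=
  ∃ (a b : ℝ) (c : ℝ → ℂ), a < b ∧ ContinuousOn c (Set.Icc a b) ∧ c a = c b ∧
    Set.InjOn c (Set.Ico a b) ∧ c '' Set.Icc a b = Γ

/-- The interior (domain) of a simple closed curve `Γ`: the points off `Γ` lying in a bounded
connected component of the complement of `Γ`. -/
def interiorDomain (Γ : Set ℂ) : Set ℂ :=
  {w | w ∉ Γ ∧ Bornology.IsBounded (connectedComponentIn Γᶜ w)}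

/-- Near `p` the curve `Γ` is an analytic arc: `Γ` corresponds to the real line under a conformal
chart at `p`. -/
def IsAnalyticArcNear (Γ : Set ℂ) (p : ℂ) : Prop :=
  ∃ (φ : ℂ → ℂ) (r : ℝ), 0 < r ∧ DifferentiableOn ℂ φ (ball 0 r) ∧ Set.InjOn φ (ball 0 r) ∧
    φ 0 = p ∧ ∀ z ∈ ball (0 : ℂ) r, (φ z ∈ Γ ↔ z.im = 0)

/-- `p` is a singular point of `Γ`: a point of `Γ` near which `Γ` is not an analytic arc. -/
def IsSingularPoint (Γ : Set ℂ) (p : ℂ) : Prop := p ∈ Γ ∧ ¬ IsAnalyticArcNear Γ p

/-- The inner angle of `Γ` at `p` is `0`: there is a direction `e` such that `Γ` and its interior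
domain near `p` are contained in arbitrarily narrow sectors with vertex `p` about the direction `e`
(so both one-sided tangent directions at `p` are `e`, and the interior domain narrows to a cusp). -/
def HasInnerAngleZero (Γ : Set ℂ) (p : ℂ) : Prop :=
  p ∈ closure (interiorDomain Γ) ∧ ∃ e : ℂ, ‖e‖ = 1 ∧ ∀ ε > (0 : ℝ), ∃ ρ > (0 : ℝ),
    ∀ w ∈ Γ ∪ interiorDomain Γ, w ≠ p → ‖w - p‖ < ρ → ‖(w - p) / ‖w - p‖ - e‖ < ε

/-- The winding number about `w` of the closed curve `t ↦ f(e^{it})`, `0 ≤ t ≤ 2π`. -/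
noncomputable def windingNumber (f : ℂ → ℂ) (w : ℂ) : ℂ :=
  (2 * π * I)⁻¹ * ∮ z in C(0, 1), deriv f z / (f z - w)

/-! ### Hardy space, Toeplitz operators, similarity -/

/-- The unit circle, parametrised as `ℝ/ℤ`; the point with parameter `θ` is `e^{2πiθ}`. -/
abbrev Circ : Type := UnitAddCircle

/-- Normalised arc length on the unit circle. -/
noncomputable abbrev arcLength : Measure Circ := haarAddCircle

/-- The point `e^{2πiθ}` of the unit circle. -/
noncomputable def pt (θ : Circ) : ℂ := (toCircle θ : ℂ)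

/-- The Hilbert space `L²(ν)` for a measure `ν` on the circle. -/
abbrev L2 (ν : Measure Circ) : Type := Lp ℂ 2 ν

lemma memLp_mul (ν : Measure Circ) [IsFiniteMeasure ν] (G : C(Circ, ℂ)) (h : L2 ν) :
    MemLp (fun θ => G θ * h θ) 2 ν :=
  Pool.Agent.Helper39.ToepHardy.memLp_mul ν G h

/-- Multiplication by a continuous function `G` on `L²(ν)`: the class of `θ ↦ G(θ) h(θ)`. -/
noncomputable def mulL2 (ν : Measure Circ) [IsFiniteMeasure ν] (G : C(Circ, ℂ)) (h : L2 ν) :
    L2 ν :=
  (memLp_mul ν G h).toLp (fun θ => G θ * h θ)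

/-- The class in `L²` of `z ↦ zⁿ`. -/
noncomputable def monomial (n : ℕ) : L2 arcLength := fourierLp 2 (n : ℤ)

/-- The Hardy space `H²`: the closed linear span of `1, z, z², …` in `L²` of the circle. -/
noncomputable def H2 : Submodule ℂ (L2 arcLength) :=
  (Submodule.span ℂ (Set.range monomial)).topologicalClosure

instance completeH2 : CompleteSpace H2 :=
  (Submodule.isClosed_topologicalClosure _).completeSpace_coe

/-- The compression `k ↦ P (A k)` of a map `A` on a Hilbert space to a closed subspace `K`, `P` being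
the orthogonal projection onto `K`. -/
noncomputable def compression {H : Type} [NormedAddCommGroup H] [InnerProductSpace ℂ H]
    (K : Submodule ℂ H) [CompleteSpace K] (A : H → H) (k : K) : K :=
  K.orthogonalProjectionOnto (A k)

/-- The Toeplitz operator `T_G h = P (G h)` on `H²`, `P` the orthogonal projection of `L²` onto
`H²`. -/
noncomputable def toeplitz (G : C(Circ, ℂ)) : H2 → H2 := compression H2 (mulL2 arcLength G)

/-- Operators `A` on `H` and `B` on `K` are similar: `X A = B X` for some bounded linear bijection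
`X : H → K` with bounded inverse. -/
def Similar {H K : Type} [NormedAddCommGroup H] [NormedSpace ℂ H] [NormedAddCommGroup K]
    [NormedSpace ℂ K] (A : H → H) (B : K → K) : Prop :=
  ∃ X : H ≃L[ℂ] K, ∀ h, X (A h) = B (X h)

/-- The Hilbert space direct sum `L²(γ_1) ⊕ ⋯ ⊕ L²(γ_n)` (with arc length measure). -/
abbrev SumL2 (n : ℕ) (γ : Fin n → Set Circ) : Type :=
  PiLp 2 (fun k => L2 (arcLength.restrict (γ k)))

/-- `M_1 ⊕ ⋯ ⊕ M_n`, where `M_k` is multiplication by `F` on `L²(γ_k)`. -/
noncomputable def sumMul (F : C(Circ, ℂ)) (n : ℕ) (γ : Fin n → Set Circ) (v : SumL2 n γ) :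
    SumL2 n γ :=
  WithLp.toLp 2 (fun k => mulL2 (arcLength.restrict (γ k)) F (v k))

/-! ### Geometry of the curve -/

/-- The curve: the cuspidal arc `{x² + i x³ : |x| ≤ 2}` closed up by the vertical segment from
`4 - 8i` to `4 + 8i`. -/
def Gam : Set ℂ := {w | (w.im ^ 2 = w.re ^ 3 ∧ w.re ≤ 4) ∨ (w.re = 4 ∧ w.im ^ 2 ≤ 64)}

/-- its interior domain -/
def Om : Set ℂ := {w | w.im ^ 2 < w.re ^ 3 ∧ w.re < 4}

lemma gam_simple : IsSimpleClosedCurve Gam := by
  refine ⟨-2, 3, fun t => ⟨(min t 2) ^ 2, (min t 2) ^ 3 - 16 * max (t - 2) 0⟩, by norm_num, ?_, ?_,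
    ?_, ?_⟩
  · refine Continuous.continuousOn ?_
    have h : (fun t : ℝ => (⟨(min t 2) ^ 2, (min t 2) ^ 3 - 16 * max (t - 2) 0⟩ : ℂ)) =
        fun t : ℝ => (((min t 2) ^ 2 : ℝ) : ℂ) +
          (((min t 2) ^ 3 - 16 * max (t - 2) 0 : ℝ) : ℂ) * I := by
      funext t
      exact Complex.mk_eq_add_mul_I _ _
    rw [h]
    fun_prop
  · apply Complex.ext
    · norm_num
    · norm_num
  · intro s hs t ht hst
    have hre := congrArg Complex.re hst
    have him := congrArg Complex.im hst
    simp only at hre him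
    have hodd : ∀ x y : ℝ, x ^ 3 = y ^ 3 → x = y := fun x y h =>
      (Odd.strictMono_pow (by decide : Odd 3)).injective h
    rcases le_total s 2 with h1 | h1 <;> rcases le_total t 2 with h2 | h2
    · rw [min_eq_left h1, min_eq_left h2, max_eq_right (by linarith), max_eq_right (by linarith)] at him
      exact hodd s t (by linarith)
    · rw [min_eq_left h1, min_eq_right h2, max_eq_right (by linarith), max_eq_left (by linarith)] at him
      rw [min_eq_left h1, min_eq_right h2] at hre
      have h3 : (s - 2) * (s + 2) = 0 := by linarith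
      rcases mul_eq_zero.1 h3 with h4 | h4
      · have : s = 2 := by linarith
        rw [this] at him ⊢
        linarith
      · have : s = -2 := by linarith
        rw [this] at him
        have := ht.2
        linarith
    · rw [min_eq_right h1, min_eq_left h2, max_eq_left (by linarith), max_eq_right (by linarith)] at him
      rw [min_eq_right h1, min_eq_left h2] at hre
      have h3 : (t - 2) * (t + 2) = 0 := by linarith
      rcases mul_eq_zero.1 h3 with h4 | h4
      · have : t = 2 := by linarith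
        rw [this] at him ⊢
        linarith
      · have : t = -2 := by linarith
        rw [this] at him
        have := hs.2
        linarith
    · rw [min_eq_right h1, min_eq_right h2, max_eq_left (by linarith), max_eq_left (by linarith)] at him
      linarith
  · ext w
    constructor
    · rintro ⟨t, ht, rfl⟩
      show (_ ∧ _) ∨ (_ ∧ _)
      simp only
      rcases le_total t 2 with h1 | h1
      · left
        rw [min_eq_left h1, max_eq_right (by linarith)]
        have := ht.1
        constructor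
        · ring
        · nlinarith
      · right
        rw [min_eq_right h1, max_eq_left (by linarith)]
        have := ht.2
        constructor
        · norm_num
        · nlinarith
    · rintro (⟨h1, h2⟩ | ⟨h1, h2⟩)
      · have h3 : 0 ≤ w.re := by
          by_contra hcon
          push Not at hcon
          have : w.re ^ 3 < 0 := by
            have : w.re ^ 3 = w.re * (w.re * w.re) := by ring
            rw [this]
            exact mul_neg_of_neg_of_pos hcon (mul_pos_of_neg_of_neg hcon hcon)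
          nlinarith [sq_nonneg w.im]
        have h4 : Real.sqrt w.re ^ 2 = w.re := Real.sq_sqrt h3
        have h5 : 0 ≤ Real.sqrt w.re := Real.sqrt_nonneg _
        have h6 : Real.sqrt w.re ≤ 2 := by
          rw [Real.sqrt_le_left (by norm_num)]; linarith
        have h7 : (w.im - Real.sqrt w.re ^ 3) * (w.im + Real.sqrt w.re ^ 3) = 0 := by
          have : (Real.sqrt w.re ^ 3) ^ 2 = w.re ^ 3 := by
            rw [← pow_mul, mul_comm, pow_mul, h4]
          linear_combination h1 - this
        rcases mul_eq_zero.1 h7 with h8 | h8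
        · refine ⟨Real.sqrt w.re, ⟨by linarith, by linarith⟩, ?_⟩
          apply Complex.ext
          · simp only [min_eq_left h6]
            exact h4
          · simp only [min_eq_left h6, max_eq_right (by linarith : Real.sqrt w.re - 2 ≤ 0)]
            linarith
        · refine ⟨-Real.sqrt w.re, ⟨by linarith, by linarith⟩, ?_⟩
          apply Complex.ext
          · simp only [min_eq_left (by linarith : -Real.sqrt w.re ≤ 2)]
            rw [neg_sq]; exact h4
          · simp only [min_eq_left (by linarith : -Real.sqrt w.re ≤ 2),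
              max_eq_right (by linarith : -Real.sqrt w.re - 2 ≤ 0)]
            have : (-Real.sqrt w.re) ^ 3 = - Real.sqrt w.re ^ 3 := by ring
            rw [this]
            linarith
      · have h3 : -8 ≤ w.im ∧ w.im ≤ 8 := abs_le_of_sq_le_sq' (by linarith) (by norm_num)
        refine ⟨2 + (8 - w.im) / 16, ⟨by linarith [h3.2], by linarith [h3.1]⟩, ?_⟩
        have h4 : (2 : ℝ) ≤ 2 + (8 - w.im) / 16 := by linarith [h3.2]
        apply Complex.ext
        · simp only [min_eq_right h4]
          linarith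
        · simp only [min_eq_right h4, max_eq_left (by linarith : (0:ℝ) ≤ 2 + (8 - w.im) / 16 - 2)]
          ring

lemma zero_mem_gam : (0 : ℂ) ∈ Gam := by
  left; simp

/-- off `Γ` and `Ω` there is an unbounded ray -/
lemma exists_ray (w : ℂ) (h1 : w ∉ Gam) (h2 : w ∉ Om) :
    ∃ v : ℂ, ‖v‖ = 1 ∧ ∀ t : ℝ, 0 ≤ t → w + t * v ∉ Gam := by
  have h3 : w.re ^ 3 < w.im ^ 2 ∨ 4 < w.re := by
    by_contra hcon
    push Not at hcon
    obtain ⟨h4, h5⟩ := hcon
    rcases h4.lt_or_eq with h6 | h6
    · rcases h5.lt_or_eq with h7 | h7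
      · exact h2 ⟨h6, h7⟩
      · apply h1
        right
        refine ⟨h7, ?_⟩
        rw [h7] at h6
        nlinarith
    · exact h1 (Or.inl ⟨h6, h5⟩)
  rcases le_or_gt w.re 4 with h4 | h4
  · have h5 : w.re ^ 3 < w.im ^ 2 := by
      rcases h3 with h | h
      · exact h
      · linarith
    rcases lt_trichotomy w.im 0 with h6 | h6 | h6
    · refine ⟨-I, by simp, fun t ht hmem => ?_⟩
      have hre : (w + t * -I).re = w.re := by simp
      have him : (w + t * -I).im = w.im - t := by simp; ring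
      rcases hmem with ⟨h7, h8⟩ | ⟨h7, h8⟩
      · rw [hre, him] at h7
        nlinarith
      · rw [hre] at h7
        rw [him] at h8
        rw [h7] at h5
        nlinarith
    · refine ⟨-1, by simp, fun t ht hmem => ?_⟩
      have hre : (w + t * -1).re = w.re - t := by simp; ring
      have him : (w + t * -1).im = w.im := by simp
      rw [h6] at h5
      have h7 : w.re < 0 := by
        by_contra hcon
        push Not at hcon
        have : 0 ≤ w.re ^ 3 := by positivity
        linarith
      rcases hmem with ⟨h8, h9⟩ | ⟨h8, h9⟩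
      · rw [hre, him, h6] at h8
        have h10 : w.re - t < 0 := by linarith
        have h11 : (w.re - t) ^ 3 < 0 := by
          have : (w.re - t) ^ 3 = (w.re - t) * ((w.re - t) * (w.re - t)) := by ring
          rw [this]
          exact mul_neg_of_neg_of_pos h10 (mul_pos_of_neg_of_neg h10 h10)
        linarith
      · rw [hre] at h8
        linarith
    · refine ⟨I, by simp, fun t ht hmem => ?_⟩
      have hre : (w + t * I).re = w.re := by simp
      have him : (w + t * I).im = w.im + t := by simp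
      rcases hmem with ⟨h7, h8⟩ | ⟨h7, h8⟩
      · rw [hre, him] at h7
        nlinarith
      · rw [hre] at h7
        rw [him] at h8
        rw [h7] at h5
        nlinarith
  · refine ⟨1, by simp, fun t ht hmem => ?_⟩
    have hre : (w + t * 1).re = w.re + t := by simp
    rcases hmem with ⟨h7, h8⟩ | ⟨h7, h8⟩
    · rw [hre] at h8; linarith
    · rw [hre] at h7; linarith

lemma isOpen_Om : IsOpen Om := by
  have h1 : IsOpen {w : ℂ | w.im ^ 2 < w.re ^ 3} := isOpen_lt (by fun_prop) (by fun_prop)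
  have h2 : IsOpen {w : ℂ | w.re < 4} := isOpen_lt (by fun_prop) (by fun_prop)
  exact h1.inter h2

lemma Om_re_pos {w : ℂ} (hw : w.im ^ 2 ≤ w.re ^ 3) : 0 ≤ w.re := by
  by_contra hcon
  push Not at hcon
  have : w.re ^ 3 < 0 := by
    have : w.re ^ 3 = w.re * (w.re * w.re) := by ring
    rw [this]
    exact mul_neg_of_neg_of_pos hcon (mul_pos_of_neg_of_neg hcon hcon)
  nlinarith [sq_nonneg w.im]

lemma bounded_Om : Bornology.IsBounded Om := by
  rw [isBounded_iff_forall_norm_le]
  refine ⟨12, fun w hw => ?_⟩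
  obtain ⟨h1, h2⟩ := hw
  have h3 := Om_re_pos h1.le
  have h4 : w.im ^ 2 ≤ 8 ^ 2 := by
    have : w.re ^ 3 ≤ 4 ^ 3 := by gcongr
    nlinarith
  have h5 : |w.im| ≤ 8 := abs_le_of_sq_le_sq h4 (by norm_num)
  calc ‖w‖ ≤ |w.re| + |w.im| := Complex.norm_le_abs_re_add_abs_im w
    _ ≤ 4 + 8 := by
      rw [abs_of_nonneg h3]
      linarith
    _ = 12 := by norm_num

lemma interior_eq : interiorDomain Gam = Om := by
  ext w
  constructor
  · rintro ⟨h1, h2⟩
    by_contra h3
    obtain ⟨v, hv, hray⟩ := exists_ray w h1 h3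
    let R : Set ℂ := (fun t : ℝ => w + t * v) '' Set.Ici 0
    have hRc : IsPreconnected R := by
      refine isPreconnected_Ici.image _ (Continuous.continuousOn (by fun_prop))
    have hRs : R ⊆ Gamᶜ := by
      rintro _ ⟨t, ht, rfl⟩
      exact hray t ht
    have hRw : w ∈ R := ⟨0, by simp, by simp⟩
    have hsub := hRc.subset_connectedComponentIn hRw hRs
    have hb := h2.subset hsub
    rw [isBounded_iff_forall_norm_le] at hb
    obtain ⟨C, hC⟩ := hb
    have hC0 : 0 ≤ C := (norm_nonneg _).trans (hC w hRw)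
    have h4 := hC (w + ((C + ‖w‖ + 1 : ℝ) : ℂ) * v) ⟨C + ‖w‖ + 1, by
      show (0:ℝ) ≤ C + ‖w‖ + 1
      positivity, rfl⟩
    have h5 : ‖((C + ‖w‖ + 1 : ℝ) : ℂ) * v‖ = C + ‖w‖ + 1 := by
      rw [norm_mul, hv, mul_one, Complex.norm_real, Real.norm_of_nonneg (by positivity)]
    have h6 : ‖((C + ‖w‖ + 1 : ℝ) : ℂ) * v‖ ≤ ‖w + ((C + ‖w‖ + 1 : ℝ) : ℂ) * v‖ + ‖w‖ := by
      have := norm_sub_le (w + ((C + ‖w‖ + 1 : ℝ) : ℂ) * v) w
      rwa [add_sub_cancel_left] at this
    linarith
  · intro hw
    have hnot : w ∉ Gam := by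
      obtain ⟨h1, h2⟩ := hw
      rintro (⟨h3, h4⟩ | ⟨h3, h4⟩)
      · linarith
      · linarith
    refine ⟨hnot, bounded_Om.subset ?_⟩
    let V : Set ℂ := {w | w.re ^ 3 < w.im ^ 2} ∪ {w | 4 < w.re}
    have hV : IsOpen V := by
      have h1 : IsOpen {w : ℂ | w.re ^ 3 < w.im ^ 2} := isOpen_lt (by fun_prop) (by fun_prop)
      have h2 : IsOpen {w : ℂ | 4 < w.re} := isOpen_lt (by fun_prop) (by fun_prop)
      exact h1.union h2
    refine IsPreconnected.subset_left_of_subset_union isOpen_Om hV ?_ ?_ ?_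
      isPreconnected_connectedComponentIn
    · rw [Set.disjoint_left]
      rintro z ⟨h1, h2⟩ (h3 | h3)
      · exact absurd h1 (not_lt.2 (le_of_lt h3))
      · exact absurd h2 (not_lt.2 (le_of_lt h3))
    · intro z hz
      have hz1 : z ∉ Gam := connectedComponentIn_subset _ _ hz
      by_contra hcon
      rw [Set.mem_union, not_or] at hcon
      obtain ⟨hc1, hc2⟩ := hcon
      have hc3 : ¬ (z.re ^ 3 < z.im ^ 2) ∧ ¬ (4 < z.re) :=
        ⟨fun h => hc2 (Or.inl h), fun h => hc2 (Or.inr h)⟩
      obtain ⟨hc4, hc5⟩ := hc3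
      push Not at hc4 hc5
      rcases hc4.lt_or_eq with h6 | h6
      · rcases hc5.lt_or_eq with h7 | h7
        · exact hc1 ⟨h6, h7⟩
        · apply hz1
          right
          refine ⟨h7, ?_⟩
          rw [h7] at h6
          nlinarith
      · exact hz1 (Or.inl ⟨h6, hc5⟩)
    · exact ⟨w, mem_connectedComponentIn hnot, hw⟩

lemma inner_angle : HasInnerAngleZero Gam 0 := by
  rw [HasInnerAngleZero, interior_eq]
  constructor
  · have h1 : Tendsto (fun t : ℝ => (t : ℂ)) (𝓝[>] 0) (𝓝 0) := by
      have : Tendsto (fun t : ℝ => (t : ℂ)) (𝓝 0) (𝓝 ((0:ℝ) : ℂ)) :=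
        Complex.continuous_ofReal.tendsto 0
      rw [Complex.ofReal_zero] at this
      exact this.mono_left nhdsWithin_le_nhds
    refine mem_closure_of_tendsto h1 ?_
    have h2 : ∀ᶠ t in 𝓝[>] (0:ℝ), t ∈ Set.Ioo (0:ℝ) 4 := Ioo_mem_nhdsGT (by norm_num)
    filter_upwards [h2] with t ht
    refine ⟨?_, ?_⟩
    · simp only [Complex.ofReal_im, Complex.ofReal_re]
      have : 0 < t ^ 3 := pow_pos ht.1 3
      linarith
    · simpa using ht.2
  · refine ⟨1, by simp, fun ε hε => ⟨min 1 (ε ^ 2 / 16), by positivity, ?_⟩⟩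
    intro w hw hw0 hwρ
    rw [sub_zero] at hwρ ⊢
    have hK : w.im ^ 2 ≤ w.re ^ 3 ∨ w.re = 4 := by
      rcases hw with (⟨h1, h2⟩ | ⟨h1, h2⟩) | ⟨h1, h2⟩
      · exact Or.inl h1.le
      · exact Or.inr h1
      · exact Or.inl h1.le
    have hnorm1 : ‖w‖ < 1 := lt_of_lt_of_le hwρ (min_le_left _ _)
    have hnorm2 : ‖w‖ < ε ^ 2 / 16 := lt_of_lt_of_le hwρ (min_le_right _ _)
    have hren : |w.re| ≤ ‖w‖ := Complex.abs_re_le_norm w
    have him2 : w.im ^ 2 ≤ w.re ^ 3 := by
      rcases hK with h | h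
      · exact h
      · rw [h] at hren
        rw [abs_of_pos (by norm_num)] at hren
        linarith
    have hre0 := Om_re_pos him2
    have hrepos : 0 < w.re := by
      rcases hre0.lt_or_eq with h | h
      · exact h
      · exfalso
        apply hw0
        rw [← h] at him2
        have : w.im = 0 := by nlinarith [sq_nonneg w.im]
        exact Complex.ext h.symm this
    rw [abs_of_pos hrepos] at hren
    have hn0 : 0 < ‖w‖ := norm_pos_iff.2 hw0
    have h1 : w / (‖w‖ : ℂ) - 1 = (w - ‖w‖) / (‖w‖ : ℂ) := by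
      have : (‖w‖ : ℂ) ≠ 0 := by exact_mod_cast hn0.ne'
      field_simp
    rw [h1, norm_div, Complex.norm_real, Real.norm_of_nonneg hn0.le, div_lt_iff₀ hn0]
    have h2 : ‖w - (‖w‖ : ℂ)‖ ≤ (‖w‖ - w.re) + |w.im| := by
      refine (Complex.norm_le_abs_re_add_abs_im _).trans ?_
      simp only [Complex.sub_re, Complex.sub_im, Complex.ofReal_re, Complex.ofReal_im, sub_zero]
      rw [abs_sub_comm, abs_of_nonneg (by linarith : 0 ≤ ‖w‖ - w.re)]
    have h3 : ‖w‖ ≤ w.re + |w.im| := by
      have := Complex.norm_le_abs_re_add_abs_im w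
      rwa [abs_of_pos hrepos] at this
    have h4 : |w.im| < ε / 4 * w.re := by
      have h5 : |w.im| ^ 2 < (ε / 4 * w.re) ^ 2 := by
        rw [sq_abs]
        calc w.im ^ 2 ≤ w.re ^ 3 := him2
          _ = w.re * w.re ^ 2 := by ring
          _ < (ε ^ 2 / 16) * w.re ^ 2 := by
            have : w.re < ε ^ 2 / 16 := lt_of_le_of_lt hren hnorm2
            gcongr
          _ = (ε / 4 * w.re) ^ 2 := by ring
      exact lt_of_pow_lt_pow_left₀ 2 (by positivity) h5
    have h6 : ε / 4 * w.re ≤ ε / 4 * ‖w‖ := by gcongr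
    have h7 : 0 < ε * ‖w‖ := by positivity
    linarith

lemma singular : IsSingularPoint Gam 0 := by
  refine ⟨zero_mem_gam, ?_⟩
  rintro ⟨φ, r, hr, hd, hinj, h0, hΓ⟩
  have hderiv := Pool.Agent.Helper39.deriv_ne_zero_of_injOn isOpen_ball hd hinj
    (mem_ball_self hr)
  apply hderiv
  set a := deriv φ 0 with ha
  have hda : HasDerivAt φ a 0 := (hd.differentiableAt (isOpen_ball.mem_nhds (mem_ball_self hr))).hasDerivAt
  -- restrict to the real axis
  have hdr : HasDerivAt (fun t : ℝ => φ (t : ℂ)) a 0 := by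
    have := hda.comp_ofReal (z := 0)
    simpa using this
  have hre : HasDerivAt (fun t : ℝ => (φ (t : ℂ)).re) a.re 0 := by
    exact (Complex.reCLM.hasFDerivAt.comp_hasDerivAt (0:ℝ) hdr)
  have him : HasDerivAt (fun t : ℝ => (φ (t : ℂ)).im) a.im 0 := by
    exact (Complex.imCLM.hasFDerivAt.comp_hasDerivAt (0:ℝ) hdr)
  have hcont : Tendsto (fun t : ℝ => φ (t : ℂ)) (𝓝 0) (𝓝 0) := by
    have := hdr.continuousAt.tendsto
    simpa [h0] using this
  have hlt : ∀ᶠ t : ℝ in 𝓝 0, (φ (t : ℂ)).re < 4 := by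
    have := (Complex.continuous_re.tendsto 0).comp hcont
    exact this.eventually (gt_mem_nhds (by simp))
  have hball : ∀ᶠ t : ℝ in 𝓝 0, (t : ℂ) ∈ ball (0:ℂ) r := by
    have : Tendsto (fun t : ℝ => (t : ℂ)) (𝓝 0) (𝓝 ((0:ℝ) : ℂ)) :=
      Complex.continuous_ofReal.tendsto 0
    exact this.eventually (isOpen_ball.mem_nhds (by simpa using hr))
  have hcusp : ∀ᶠ t : ℝ in 𝓝 0, (φ (t : ℂ)).im ^ 2 = (φ (t : ℂ)).re ^ 3 := by
    filter_upwards [hlt, hball] with t h1 h2
    have h3 := (hΓ _ h2).2 (by simp)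
    rcases h3 with ⟨h4, _⟩ | ⟨h4, _⟩
    · exact h4
    · linarith
  have hnonneg : ∀ᶠ t : ℝ in 𝓝 0, 0 ≤ (φ (t : ℂ)).re := by
    filter_upwards [hcusp] with t h1
    exact Om_re_pos h1.le
  -- `0` is a local minimum of the real part
  have hmin : IsLocalMin (fun t : ℝ => (φ (t : ℂ)).re) 0 := by
    filter_upwards [hnonneg] with t ht
    simpa [h0] using ht
  have hare : a.re = 0 := hmin.hasDerivAt_eq_zero hre
  have haim : a.im = 0 := by
    -- derivative of im² = re³ to second order
    have h1 : Tendsto (fun t : ℝ => ((φ (t : ℂ)).re) / t) (𝓝[≠] 0) (𝓝 0) := by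
      have := hre.tendsto_slope_zero
      simp only [zero_add, Complex.ofReal_zero, h0, Complex.zero_re, sub_zero, hare,
        smul_eq_mul] at this
      refine this.congr fun t => ?_
      rw [div_eq_inv_mul]
    have h2 : Tendsto (fun t : ℝ => ((φ (t : ℂ)).im) / t) (𝓝[≠] 0) (𝓝 a.im) := by
      have := him.tendsto_slope_zero
      simp only [zero_add, Complex.ofReal_zero, h0, Complex.zero_im, sub_zero,
        smul_eq_mul] at this
      refine this.congr fun t => ?_
      rw [div_eq_inv_mul]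
    have h3 : Tendsto (fun t : ℝ => (((φ (t : ℂ)).im) / t) ^ 2) (𝓝[≠] 0) (𝓝 (a.im ^ 2)) :=
      h2.pow 2
    have h4 : Tendsto (fun t : ℝ => (((φ (t : ℂ)).re) / t) ^ 2 * (φ (t : ℂ)).re) (𝓝[≠] 0)
        (𝓝 (0 ^ 2 * 0)) := by
      refine (h1.pow 2).mul ?_
      have := (Complex.continuous_re.tendsto 0).comp hcont
      exact this.mono_left nhdsWithin_le_nhds
    have h5 : (fun t : ℝ => (((φ (t : ℂ)).im) / t) ^ 2) =ᶠ[𝓝[≠] 0]
        fun t : ℝ => (((φ (t : ℂ)).re) / t) ^ 2 * (φ (t : ℂ)).re := by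
      filter_upwards [nhdsWithin_le_nhds hcusp] with t ht
      rw [div_pow, ht, div_pow]
      ring
    have h6 := tendsto_nhds_unique (h3.congr' h5) h4
    have h7 : a.im ^ 2 = 0 := by simpa using h6
    exact pow_eq_zero_iff (two_ne_zero) |>.1 h7
  exact Complex.ext hare haim

/-! ### The winding number -/

/-- numerator and denominator of the symbol -/
noncomputable def P0 : ℂ[X] :=
  Polynomial.X * (Polynomial.X ^ 2 + 1) ^ 2 + Polynomial.C I * (Polynomial.X ^ 2 + 1) ^ 3
noncomputable def Q0 : ℂ[X] := Polynomial.X ^ 3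

lemma f_eq (z : ℂ) (hz : z ≠ 0) :
    P0.eval z / Q0.eval z = (z + z⁻¹) ^ 2 + I * (z + z⁻¹) ^ 3 := by
  simp only [P0, Q0, Polynomial.eval_add, Polynomial.eval_mul, Polynomial.eval_pow,
    Polynomial.eval_X, Polynomial.eval_one, Polynomial.eval_C]
  field_simp

lemma winding_zero (w : ℂ) : windingNumber (fun z => P0.eval z / Q0.eval z) w = 0 := by
  set f : ℂ → ℂ := fun z => P0.eval z / Q0.eval z with hf
  have hsym : ∀ z : ℂ, z ≠ 0 → f z⁻¹ = f z := by
    intro z hz
    simp only [hf]
    rw [f_eq z hz, f_eq z⁻¹ (inv_ne_zero hz), inv_inv, add_comm z⁻¹ z]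
  have hdiff : ∀ z : ℂ, z ≠ 0 → DifferentiableAt ℂ f z := by
    intro z hz
    refine DifferentiableAt.div (Polynomial.differentiable _ _) (Polynomial.differentiable _ _) ?_
    simp only [Q0, Polynomial.eval_pow, Polynomial.eval_X]
    exact pow_ne_zero _ hz
  have hder : ∀ z : ℂ, z ≠ 0 → deriv f z⁻¹ * z⁻¹ = - (deriv f z * z) := by
    intro z hz
    have h1 : HasDerivAt (fun x : ℂ => f x⁻¹) (deriv f z⁻¹ * (-(z ^ 2)⁻¹)) z :=
      (hdiff z⁻¹ (inv_ne_zero hz)).hasDerivAt.comp z (hasDerivAt_inv hz)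
    have h2 : (fun x : ℂ => f x⁻¹) =ᶠ[𝓝 z] f := by
      filter_upwards [isOpen_ne.mem_nhds hz] with x hx
      exact hsym x hx
    have h3 := h1.congr_of_eventuallyEq h2.symm
    have h4 := h3.deriv
    rw [h4]
    field_simp
  have hint : (∮ z in C(0, 1), deriv f z / (f z - w)) = 0 := by
    rw [circleIntegral]
    set g : ℝ → ℂ := fun θ => deriv (circleMap 0 1) θ •
      (deriv f (circleMap 0 1 θ) / (f (circleMap 0 1 θ) - w)) with hg
    have hgsym : ∀ θ, g (2 * π - θ) = - g θ := by
      intro θ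
      have hcm : circleMap 0 1 (2 * π - θ) = (circleMap 0 1 θ)⁻¹ := by
        simp only [circleMap, Complex.ofReal_one, one_mul, zero_add, Complex.ofReal_sub,
          Complex.ofReal_mul, Complex.ofReal_ofNat]
        rw [sub_mul, Complex.exp_sub, Complex.exp_two_pi_mul_I, one_div]
      have hne : circleMap 0 1 θ ≠ 0 := circleMap_ne_center one_ne_zero
      simp only [hg, deriv_circleMap, smul_eq_mul]
      have h0 : ∀ t : ℝ, (circleMap 0 1 t : ℂ) = circleMap 0 1 t := fun _ => rfl
      rw [hcm, hsym _ hne]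
      have := hder _ hne
      set z := circleMap 0 1 θ
      calc z⁻¹ * I * (deriv f z⁻¹ / (f z - w)) = I * (deriv f z⁻¹ * z⁻¹) / (f z - w) := by ring
        _ = I * (-(deriv f z * z)) / (f z - w) := by rw [this]
        _ = -(z * I * (deriv f z / (f z - w))) := by ring
    have h1 : ∫ θ in (0:ℝ)..2 * π, g (2 * π - θ) = ∫ θ in (0:ℝ)..2 * π, g θ := by
      rw [intervalIntegral.integral_comp_sub_left g (2 * π)]
      simp
    have h2 : ∫ θ in (0:ℝ)..2 * π, g (2 * π - θ) = - ∫ θ in (0:ℝ)..2 * π, g θ := by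
      simp only [hgsym, intervalIntegral.integral_neg]
    have h3 : ∫ θ in (0:ℝ)..2 * π, g θ = - ∫ θ in (0:ℝ)..2 * π, g θ := h1.symm.trans h2
    exact self_eq_neg.1 h3
  rw [windingNumber, hint, mul_zero]

/-! ### The symbol -/

open Pool.Agent.Helper39.ToepHardy (F0 F0_apply)

lemma pt_norm (θ : Circ) : ‖pt θ‖ = 1 := Circle.norm_coe _

lemma fourier_pt (n : ℤ) (θ : Circ) : fourier n θ = (pt θ) ^ n := by
  rw [fourier_apply, pt, toCircle_zsmul, Circle.coe_zpow]

lemma F0_apply' (θ : Circ) :
    F0 θ = ((2 * (pt θ).re : ℝ) : ℂ) ^ 2 + I * ((2 * (pt θ).re : ℝ) : ℂ) ^ 3 := F0_apply θ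

lemma not_similar (n : ℕ) (γ : Fin n → Set Circ) : ¬ Similar (toeplitz F0) (sumMul F0 n γ) :=
  Pool.Agent.Helper39.ToepHardy.not_similar n γ

/-! ### The theorem -/

lemma Q0_ne (θ : Circ) : Q0.eval (pt θ) ≠ 0 := by
  have h1 : pt θ ≠ 0 := by
    intro h
    have := pt_norm θ
    rw [h, norm_zero] at this
    exact zero_ne_one this
  simp only [Q0, Polynomial.eval_pow, Polynomial.eval_X]
  exact pow_ne_zero _ h1

lemma two_re (θ : Circ) : ((2 * (pt θ).re : ℝ) : ℂ) = pt θ + (pt θ)⁻¹ := by
  have h3 : (pt θ)⁻¹ = conj (pt θ) := by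
    rw [Complex.inv_def, Complex.normSq_eq_norm_sq, pt_norm]; simp
  rw [h3, Complex.add_conj]

lemma F0_rational (θ : Circ) : F0 θ = P0.eval (pt θ) / Q0.eval (pt θ) := by
  have h1 : pt θ ≠ 0 := by
    intro h
    have := pt_norm θ
    rw [h, norm_zero] at this
    exact zero_ne_one this
  rw [F0_apply', f_eq _ h1, two_re]

lemma F0_mem (θ : Circ) : F0 θ ∈ Gam := by
  have h1 : |(pt θ).re| ≤ 1 := by
    have := Complex.abs_re_le_norm (pt θ)
    rwa [pt_norm] at this
  have h2 := abs_le.1 h1
  set x : ℝ := 2 * (pt θ).re with hx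
  have hre : (F0 θ).re = x ^ 2 := by
    rw [F0_apply', ← hx, ← Complex.ofReal_pow, ← Complex.ofReal_pow, Complex.add_re,
      Complex.I_mul_re, Complex.ofReal_re, Complex.ofReal_im]
    ring
  have him : (F0 θ).im = x ^ 3 := by
    rw [F0_apply', ← hx, ← Complex.ofReal_pow, ← Complex.ofReal_pow, Complex.add_im,
      Complex.I_mul_im, Complex.ofReal_re, Complex.ofReal_im]
    ring
  left
  rw [hre, him]
  constructor
  · ring
  · nlinarith

lemma F0_zero : ∃ θ : Circ, F0 θ = 0 := by
  refine ⟨((1 / 4 : ℝ) : AddCircle (1 : ℝ)), ?_⟩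
  have h1 : pt ((1 / 4 : ℝ) : AddCircle (1 : ℝ)) = I := by
    have h2 := fourier_coe_apply (T := 1) (n := 1) (x := 1 / 4)
    rw [fourier_pt, zpow_one] at h2
    rw [h2]
    have : (2 * π * I * ((1 : ℤ) : ℂ) * ((1 / 4 : ℝ) : ℂ) / ((1 : ℝ) : ℂ)) = π / 2 * I := by
      push_cast; ring
    rw [this, Complex.exp_pi_div_two_mul_I]
  rw [F0_apply', h1]
  simp

/-- **Q1 of MP_bb1e6f_an is false.**  There are a rational function `F = P/Q` without poles on the
unit circle and a simple closed curve `Γ ⊇ F(𝕋)` with a singular point `p ∈ F(𝕋)` at which the inner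
angle of `Γ` is `0`, the winding number of `F` about the interior points of `Γ` being `ν = 0`, such
that the Toeplitz operator `T_F` on `H²` is not similar to `M_1 ⊕ ⋯ ⊕ M_n`, whatever the number `n`
and the subsets `γ_1, …, γ_n` of the circle (in particular when they are disjoint arcs, on each of
which `F` is injective, whose union is the set where `F` backs up). -/
theorem result : ∃ (P Q : ℂ[X]) (F : C(Circ, ℂ)) (Γ : Set ℂ) (p : ℂ),
    (∀ θ, Q.eval (pt θ) ≠ 0) ∧ (∀ θ, F θ = P.eval (pt θ) / Q.eval (pt θ)) ∧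
    IsSimpleClosedCurve Γ ∧ (∀ θ, F θ ∈ Γ) ∧
    IsSingularPoint Γ p ∧ HasInnerAngleZero Γ p ∧ (∃ θ, F θ = p) ∧
    (∀ w ∈ interiorDomain Γ, windingNumber (fun z => P.eval z / Q.eval z) w = 0) ∧
    ∀ (n : ℕ) (γ : Fin n → Set Circ), ¬ Similar (toeplitz F) (sumMul F n γ) :=
  ⟨P0, Q0, F0, Gam, 0, Q0_ne, F0_rational, gam_simple, F0_mem, singular, inner_angle, F0_zero,
    fun w _ => winding_zero w, not_similar⟩

end Pool.Agent.Results.MP_bb1e6f_an.ZeroAngleNotSimilar
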